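import Mathlib
import Pool.Agent.H.MP_37d31d_al.Main

set_option autoImplicit false

namespace Pool.Agent.Results.MP_d14d1f_al.Counterexample

/-- A finite group generated by a conjugacy class that is not good. -/
theorem result : ∃ (G : Type) (_ : Group G) (_ : Finite G) (c : G),
    Subgroup.closure {z | IsConj c z} = ⊤ ∧
    ∀ z, IsConj c z → ∃ k : ℤ, Commute (c ^ k) z ∧ c ^ k ∉ Subgroup.center G := by
  obtain ⟨G, _, _, c, hc, h⟩ := Pool.Agent.H.MP_37d31d_al.main
  refine ⟨G, inferInstance, inferInstance, c, hc, fun z hz => ?_⟩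
  obtain ⟨k, h1, u, -, h2⟩ := h z hz
  refine ⟨k, by simpa using h1, fun hk => h2 ?_⟩
  rw [zpow_natCast] at hk
  exact (Subgroup.mem_center_iff.1 hk u).symm

end Pool.Agent.Results.MP_d14d1f_al.Counterexample
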